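import Pool.Agent.R650.Cactus

/-!
# MP_fc7805_al: the algebraic dimension of cactus groups is not `⌊n/3⌋`

The cactus group `J_5` contains a free abelian subgroup of rank `2 > ⌊5/3⌋ = 1`.  Hence it is not
true that for all `n ≥ 2` the free abelian groups contained in `J_n` are exactly those of rank at
most `⌊n/3⌋`.

Explicitly (with positions `0, …, 4`) the two elements
`α = s_{0,1} s_{1,2}` and `β = s_{0,2} s_{0,3} s_{0,4} s_{0,3} s_{0,4} s_{0,1} s_{0,4}` commute
(by the defining relations) and generate a free abelian group of rank two (which is seen in two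
linear representations).

The definitions are in `Pool/Agent/R650/CactusDefs.lean`.
-/

set_option autoImplicit false

namespace Pool.Agent.Results.MP_fc7805_al.ZSquaredInJFive

open Pool.Agent.R650.Cactus (Cactus ContainsZPow)

/-- The cactus group `J_5` contains `ℤ²`, and so it is not true that, for every `n ≥ 2` and every
`k`, the cactus group `J_n` contains `ℤ^k` if and only if `k ≤ ⌊n/3⌋`. -/
theorem result : ContainsZPow (Cactus 5) 2 ∧
    ¬ ∀ n : ℕ, 2 ≤ n → ∀ k : ℕ, ContainsZPow (Cactus n) k ↔ k ≤ n / 3 := by
  refine ⟨Pool.Agent.R650.Cactus.cactus_five, fun h => ?_⟩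
  have h1 := (h 5 (by norm_num) 2).1 Pool.Agent.R650.Cactus.cactus_five
  norm_num at h1

end Pool.Agent.Results.MP_fc7805_al.ZSquaredInJFive
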